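import Mathlib
import Pool.Agent.K3h34.HP.Stm
import Pool.Agent.Y204.MC.Hensel
import Pool.Agent.Y70.HB.Hen

/-!
# Project HP, brick HENS: Hensel lifting of a smooth point of a system of forms (written by helper99)
-/

set_option autoImplicit false

namespace Pool.Agent.K3h99.HP

open Pool.Agent.K3h34.HP Pool.Agent.Y204.MC

/-- a matrix with trivial left kernel has a right inverse -/
theorem right_inv {K : Type} [Field K] {s m : ℕ} (J : Matrix (Fin s) (Fin m) K)
    (h : ∀ l : Fin s → K, l ≠ 0 → ∃ i, ∑ j, l j * J j i ≠ 0) :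
    ∃ B : Matrix (Fin m) (Fin s) K, J * B = 1 := by
  classical
  rw [← Matrix.mulVec_surjective_iff_exists_right_inverse]
  have hli : LinearIndependent K J.row := by
    rw [← Matrix.vecMul_injective_iff]
    intro x y hxy
    by_contra hne
    obtain ⟨i, hi⟩ := h (x - y) (sub_ne_zero.mpr hne)
    apply hi
    have h1 := congrFun (Matrix.sub_vecMul J x y) i
    have h2 : Matrix.vecMul x J - Matrix.vecMul y J = 0 := sub_eq_zero.mpr hxy
    rw [h2] at h1
    exact h1
  have hrk : J.rank = s := by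
    have := hli.rank_matrix
    rwa [Fintype.card_fin] at this
  have h3 : LinearMap.range J.mulVecLin = ⊤ := by
    apply Submodule.eq_top_of_finrank_eq
    have h4 : Module.finrank K (LinearMap.range J.mulVecLin) = J.rank := rfl
    rw [h4, hrk, Module.finrank_fintype_fun_eq_card, Fintype.card_fin]
  exact LinearMap.range_eq_top.mp h3

theorem t_HENS : S_HENS := by
  classical
  intro s n e f p _ a hs hf hT
  obtain ⟨h0, hJ⟩ := hT
  have hp : (p : ℤ) ≠ 0 := by exact_mod_cast (Fact.out : p.Prime).ne_zero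
  -- right inverse of the Jacobian matrix modulo `p`
  obtain ⟨B, hB⟩ := right_inv (K := ZMod p)
    (fun j i => ((MvPolynomial.eval a (MvPolynomial.pderiv i (f j)) : ℤ) : ZMod p)) (by
      intro l hl
      obtain ⟨j₀, hj₀⟩ := Function.ne_iff.mp hl
      obtain ⟨i, hi⟩ := hJ (fun j => ((l j).val : ℤ)) ⟨j₀, by
        intro hd
        apply hj₀
        have h1 := (ZMod.intCast_zmod_eq_zero_iff_dvd _ p).mpr hd
        rw [Int.cast_natCast, ZMod.natCast_zmod_val] at h1
        exact h1⟩
      refine ⟨i, fun h => hi ?_⟩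
      rw [← ZMod.intCast_zmod_eq_zero_iff_dvd]
      push_cast
      rw [← h]
      refine Finset.sum_congr rfl fun j _ => ?_
      rw [ZMod.natCast_zmod_val])
  obtain ⟨z0, hz1, hz2⟩ := hensel_mv f p a h0
    (fun q i => a i + (p : ℤ) * ((B i q).val : ℤ)) (fun q i => ⟨((B i q).val : ℤ), by ring⟩) (by
      intro q q'
      have h1 := taylor_dvd (f q) a (fun i => ((B i q').val : ℤ)) (p : ℤ)
      have h2 : (p : ℤ) ∣ ∑ i, MvPolynomial.eval a (MvPolynomial.pderiv i (f q)) *
          ((B i q').val : ℤ) - (if q = q' then 1 else 0) := by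
        rw [← ZMod.intCast_zmod_eq_zero_iff_dvd]
        push_cast
        have h3 := congrFun (congrFun hB q) q'
        rw [Matrix.mul_apply, Matrix.one_apply] at h3
        have h4 : ∑ i, ((MvPolynomial.eval a (MvPolynomial.pderiv i (f q)) : ℤ) : ZMod p) *
            (((B i q').val : ℕ) : ZMod p) = if q = q' then 1 else 0 := by
          rw [← h3]
          refine Finset.sum_congr rfl fun i _ => ?_
          rw [ZMod.natCast_zmod_val]
        rw [h4]
        split_ifs <;> simp
      obtain ⟨d, hd⟩ := h2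
      obtain ⟨c, hc⟩ := h1
      refine ⟨c + d, ?_⟩
      have h5 : (if q = q' then (p : ℤ) else 0) = (p : ℤ) * (if q = q' then 1 else 0) := by
        split_ifs <;> simp
      rw [h5]
      linear_combination hc + (p : ℤ) * hd)
  have hcl : ∀ i, ‖((z0 i : ℤ_[p]) : ℚ_[p]) - (a i : ℚ_[p])‖ < 1 := by
    intro i
    have h1 : ((z0 i : ℤ_[p]) : ℚ_[p]) - (a i : ℚ_[p]) =
        ((z0 i - ((a i : ℤ) : ℤ_[p]) : ℤ_[p]) : ℚ_[p]) := by
      push_cast
      rfl
    rw [h1, ← PadicInt.norm_def]
    have h2 : PadicInt.toZMod (z0 i - ((a i : ℤ) : ℤ_[p])) = 0 := by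
      rw [map_sub, map_intCast, hz2 i, sub_self]
    have h3 : z0 i - ((a i : ℤ) : ℤ_[p]) ∈ RingHom.ker (PadicInt.toZMod (p := p)) := h2
    rw [PadicInt.ker_toZMod, PadicInt.maximalIdeal_eq_span_p] at h3
    rw [Ideal.mem_span_singleton] at h3
    exact (PadicInt.norm_lt_one_iff_dvd _).2 h3
  refine ⟨fun i => ((z0 i : ℤ_[p]) : ℚ_[p]), ?_, ?_, ?_, hcl⟩
  · intro hz
    obtain ⟨i, hi⟩ := hJ (Pi.single (⟨0, by omega⟩ : Fin s) 1) ⟨⟨0, by omega⟩, by
      rw [Pi.single_eq_same]
      intro h
      exact (Nat.Prime.one_lt (Fact.out : p.Prime)).ne' (by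
        have := Int.eq_one_of_dvd_one (by positivity) h
        exact_mod_cast this)⟩
    apply hi
    refine Finset.dvd_sum fun j _ => Dvd.dvd.mul_left ?_ _
    refine Pool.Agent.Y70.HB.dvd_of_homog _ (hf j).pderiv (by omega) _ a fun i => ?_
    have h1 := hcl i
    have h2 := congrFun hz i
    simp only [Pi.zero_apply] at h2
    rw [h2, zero_sub, norm_neg] at h1
    exact Padic.norm_intCast_lt_one_iff.1 h1
  · intro j
    have h1 := MvPolynomial.comp_aeval_apply z0
      (PadicInt.Coe.ringHom (p := p)).toIntAlgHom (f j)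
    have h2 : MvPolynomial.aeval z0 (f j) = 0 := by
      rw [← hz1 j, MvPolynomial.aeval_def, MvPolynomial.eval_map]
      rfl
    rw [h2, map_zero] at h1
    exact h1.symm
  · rw [pi_norm_le_iff_of_nonneg zero_le_one]
    intro i
    rw [← PadicInt.norm_def]
    exact PadicInt.norm_le_one _

end Pool.Agent.K3h99.HP
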